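import Pool.Agent.L5helper13.Hart3

/-!
# Smooth subvarieties of codimension two of almost all degrees are complete intersections

Let `X ⊂ ℙ^N`, `N ≥ 7`, be a smooth subvariety of codimension two and degree `d`, with the canonical class
`ω_X = O_X(k)`, which is not a complete intersection. Then `k` and `d` satisfy the following conditions; they are
explained in the starting file `QuarticDegree` of this problem. Let `c₁ = k + N + 1`.

(1) The Riemann-Roch conditions for `T² - c₁ T + d`.

(2) The Segre classes `h_j`, `j ≤ N - 2`, of the globally generated bundle `N_X(-1)` are not negative: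
`h_0 = 1`, `h_1 = c₁ - 2`, `h_(j+2) = (c₁ - 2) h_(j+1) - (d - c₁ + 1) h_j`.

(3) If `4 d ≤ c₁²`, then the bundle `E` of rank two of `X` is not stable; let `a` be the largest integer such that
`E(-a)` has a section `t ≠ 0`, and `b = c₁ - a`. Then `0 < b ≤ a`, the scheme of zeros of `t` has codimension two and
degree `d - a b ≥ N² / 4` (integral part), and `(a - 1) h_j ≤ h_(j+1)` for `j ≤ N - 3`.

Let `A` be an arbitrary natural number. We show, for all large `N` and all `X ≤ N ^ A`:

* at most `2 A X (log N) / N` integers `d ≤ X` satisfy these conditions for some `k`: the smooth subvarieties of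
  codimension two of all other degrees `d ≤ X` are complete intersections;
* if `D = c₁² - 4 d` is not a square (so that `k` and `d` are not even those of a complete intersection), then there
  are much fewer possibilities: at most `X / N ^ (1 + 2 √e - ε)` pairs `(k, d)`, where `1 + 2 √e = 4.29…`;
* at most `X / N ^ (1 + 2 √e - ε)` integers `d ≤ X` with a prime factor larger than `2 √d`, for example primes,
  satisfy the conditions for some `k`.

Proof. The conditions (2) and (3) give `|D| N² ≤ (9 / 4) d (log d)²` (see `DegreeUpToPower`). By (1), `D` is a square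
modulo all odd primes `p < N`. If `D` is not a square, then `D = u δ f²` with `u ∈ {1, -1, 2, -2}` and `δ` in a set of
at most a power of `log N` integers (large sieve, `AlmostAllDegrees` of the starting files), and
`δ > N ^ (4 √e - ε) / 2` by the bound of Burgess (`BurgessDegree` of the starting files); so there are few
possibilities for `f`, and `c₁ ≤ 3 √X`. If `D` is a square, then `d = a b`, `(a - b) N ≤ (3 / 2) √d log d`.
-/

set_option autoImplicit false

namespace Pool.Agent.Results.MP_014caa_ag.AlmostEveryDegree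

open Finset Filter Polynomial Pool.Agent.R920.CH

/-- The numbers `h_0 = 1`, `h_1 = c₁ - 2`, `h_(j+2) = (c₁ - 2) h_(j+1) - (c₂ - c₁ + 1) h_j`. -/
def segre (c₁ c₂ : ℤ) : ℕ → ℤ
  | 0 => 1
  | 1 => c₁ - 2
  | j + 2 => (c₁ - 2) * segre c₁ c₂ (j + 1) - (c₂ - c₁ + 1) * segre c₁ c₂ j

/-- The conditions (1), (2), (3) on the integers `k` and `d`, for a smooth subvariety `X` of codimension two and
degree `d` of `ℙ^N`, `ω_X = O_X(k)`, which is not a complete intersection. -/
structure Conditions (N : ℕ) (k d : ℤ) : Prop where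
  pos : 0 < d
  riemannRoch : RiemannRoch N (X ^ 2 - C (k + N + 1) * X + C d)
  positive : ∀ j : ℕ, j + 2 ≤ N → 0 ≤ segre (k + N + 1) d j
  unstable : 4 * d ≤ (k + N + 1) ^ 2 → ∃ a b : ℤ, a + b = k + N + 1 ∧ 0 < b ∧ b ≤ a ∧
    (N : ℤ) ^ 2 / 4 ≤ d - a * b ∧
    ∀ j : ℕ, j + 3 ≤ N → (a - 1) * segre (k + N + 1) d j ≤ segre (k + N + 1) d (j + 1)

/-- `k` and `d` are those of a complete intersection of hypersurfaces of degrees `a` and `b`. -/
def IsCI (N : ℕ) (k d : ℤ) : Prop := ∃ a b : ℤ, 0 < a ∧ 0 < b ∧ k = a + b - N - 1 ∧ d = a * b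

lemma segre_eq (c₁ c₂ : ℤ) : ∀ j : ℕ, segre c₁ c₂ j = Pool.Agent.N998.CT.seg (c₁ - 2) (c₂ - c₁ + 1) j := by
  intro j
  induction j using Nat.twoStepInduction with
  | zero => rfl
  | one => rfl
  | more n ih1 ih2 => rw [segre, Pool.Agent.N998.CT.seg, ih1, ih2]

lemma cond {N : ℕ} {k d : ℤ} (h : Conditions N k d) : Pool.Agent.L5helper13.Ha.Cond N (k + N + 1) d where
  pos := h.pos
  rr := h.riemannRoch
  positive := fun j hj => by rw [← segre_eq]; exact h.positive j hj
  unstable := fun h4 => by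
    obtain ⟨a, b, h1, h2, h3, h5, h6⟩ := h.unstable h4
    exact ⟨a, b, h1, h2, h3, h5, fun j hj => by rw [← segre_eq, ← segre_eq]; exact h6 j hj⟩

/-- **Almost all degrees.** Let `A ≥ 1`, `ε > 0`, `N ≥ N₀(A, ε)` and `X ≤ N ^ A`.
1. At most `2 A X (log N) / N` integers `1 ≤ d ≤ X` satisfy the conditions for a smooth subvariety of codimension two
of `ℙ^N` which is not a complete intersection, for some `k`.
2. At most `X / N ^ (1 + 2 √e - ε)` pairs `(k, d)` with `d ≤ X` satisfy the conditions and are not those of a complete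
intersection.
3. At most `X / N ^ (1 + 2 √e - ε)` integers `1 ≤ d ≤ X` with a prime factor `p > 2 √d` satisfy the conditions for
some `k`. -/
theorem result (A : ℕ) (hA : 1 ≤ A) (ε : ℝ) (hε : 0 < ε) : ∃ N₀ : ℕ, ∀ N : ℕ, N₀ ≤ N → ∀ X : ℕ, X ≤ N ^ A →
    (∀ S : Finset ℕ, (∀ d ∈ S, 1 ≤ d ∧ d ≤ X ∧ ∃ k : ℤ, Conditions N k d) →
      (S.card : ℝ) * N ≤ 2 * A * X * Real.log N) ∧
    (∀ S : Finset (ℤ × ℤ), (∀ s ∈ S, Conditions N s.1 s.2 ∧ s.2 ≤ X ∧ ¬ IsCI N s.1 s.2) →
      (S.card : ℝ) * (N : ℝ) ^ (1 + 2 * Real.exp (1 / 2) - ε) ≤ X) ∧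
    ∀ S : Finset ℕ, (∀ d ∈ S, 1 ≤ d ∧ d ≤ X ∧ (∃ k : ℤ, Conditions N k d) ∧
      ∃ p : ℕ, p.Prime ∧ p ∣ d ∧ 2 * √(d : ℝ) < p) →
      (S.card : ℝ) * (N : ℝ) ^ (1 + 2 * Real.exp (1 / 2) - ε) ≤ X := by
  classical
  refine eventually_atTop.mp ?_
  filter_upwards [Pool.Agent.L5helper13.Ha.degrees A hA, Pool.Agent.L5helper13.Ha.pairs_nonsq A ε hε,
    Pool.Agent.L5helper13.Ha.large_factor A ε hε, eventually_ge_atTop 3] with N h1 h2 h3 hN Y hY
  refine ⟨fun S hS => h1 Y hY S fun d hd => ?_, fun S hS => ?_, fun S hS => h3 Y hY S fun d hd => ?_⟩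
  · obtain ⟨g1, g2, k, hk⟩ := hS d hd
    exact ⟨g1, g2, _, cond hk⟩
  · have h4 := h2 Y hY (S.image fun s => (s.1 + N + 1, s.2)) (by
      intro c hc
      rw [mem_image] at hc
      obtain ⟨⟨k, d⟩, hs, rfl⟩ := hc
      obtain ⟨g1, g2, g3⟩ := hS _ hs
      refine ⟨cond g1, g2, fun hsq => g3 ?_⟩
      simp only at g1 hsq ⊢
      obtain ⟨a, b, hab1, hab2⟩ := Pool.Agent.R503.PS.split_of_square hsq
      simp only at hab1 hab2
      have hd := g1.pos
      have hc := g1.positive 1 (by omega)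
      simp only [segre] at hc
      rw [hab2] at hd
      rcases mul_pos_iff.1 hd with ⟨ha, hb⟩ | ⟨ha, hb⟩
      · exact ⟨a, b, ha, hb, by linarith, hab2⟩
      · linarith)
    rw [card_image_of_injective _ (by
      rintro ⟨a, b⟩ ⟨a', b'⟩ h
      simp only [Prod.mk.injEq] at h ⊢
      exact ⟨by linarith [h.1], h.2⟩)] at h4
    exact h4
  · obtain ⟨g1, g2, ⟨k, hk⟩, g3⟩ := hS d hd
    exact ⟨g1, g2, ⟨_, cond hk⟩, g3⟩

end Pool.Agent.Results.MP_014caa_ag.AlmostEveryDegree
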