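import Pool.Agent.L5helper13.Hart

/-!
# Smooth subvarieties of codimension two of degree at most `N ^ (2 + 4 √e - ε)`

Let `X ⊂ ℙ^N`, `N ≥ 7`, be a smooth subvariety of codimension two and degree `d`, with the canonical class
`ω_X = O_X(k)` (`X` is subcanonical by the theorems of Barth and Larsen), which is not a complete intersection.
There is a vector bundle `E` of rank two with the Chern classes `c₁ = k + N + 1`, `c₂ = d` and a section with the
scheme of zeros `X` (Serre). The following conditions hold; they are explained in the starting file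
`QuarticDegree` of this problem.

(1) The Riemann-Roch conditions for `T² - c₁ T + d`.

(2) The Segre classes `h_j`, `j ≤ N - 2`, of the globally generated bundle `N_X(-1)` are not negative:
`h_0 = 1`, `h_1 = c₁ - 2`, `h_(j+2) = (c₁ - 2) h_(j+1) - (d - c₁ + 1) h_j`.

(3) If `4 d ≤ c₁²`, then `E` is not stable (Barth, Bogomolov); let `a` be the largest integer such that `E(-a)` has
a section `t ≠ 0`, and `b = c₁ - a`. Then `0 < b ≤ a`, the scheme of zeros of `t` has codimension two and degree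
`d - a b ≥ N² / 4` (integral part), and `t` defines an effective divisor on `ℙ(N_X(-1))`, which gives
`(a - 1) h_j ≤ h_(j+1)` for `j ≤ N - 3`.

We show: let `d ≤ N ^ (2 + 4 √e - ε)` and let `N ≥ N₀(ε)`; here `2 + 4 √e = 8.59…`. Then `d = a b`,
`k = a + b - N - 1` with integers `a ≥ b > 0` for which `a - b ≤ (3 / 2) √d (log d) / N`. So all smooth subvarieties
of codimension two of a degree `d ≤ N ^ (2 + 4 √e - ε)` which is not a product of two nearly equal integers, for
example of a prime degree, are complete intersections. (For all degrees this is known for `d < (N - 1) (N + 5)`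
(Ran, Holme, Schneider) and for `d ≤ (N - 2)² [N² / 4]` (`QuarticDegree`).)

Proof. Let `D = c₁² - 4 d`. For `D ≥ 0` the condition (3) gives `z (a - 1) ^ (N - 4) ≤ (b - 1) ^ (N - 2)` with
`z = d - a b ≥ 1`; hence `a` and `b` are close, `(a - b) N ≤ (3 / 2) √d log d`, and `D ≤ (a - b)²`. For `D < 0` the
condition (2) gives a similar inequality. So `|D| N² ≤ (9 / 4) d (log d)²`. By (1), `D` is a square modulo all odd
primes `p < N`; if it is not a square, then `|D| > N ^ (4 √e - ε)` by the bound of Burgess and the method of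
Vinogradov (`BurgessDegree`), and thus `d > N ^ (4 √e + 2 - 2 ε)`.
-/

set_option autoImplicit false

namespace Pool.Agent.Results.MP_014caa_ag.DegreeUpToPower

open Filter Polynomial Pool.Agent.R920.CH

/-- The numbers `h_0 = 1`, `h_1 = c₁ - 2`, `h_(j+2) = (c₁ - 2) h_(j+1) - (c₂ - c₁ + 1) h_j`. -/
def segre (c₁ c₂ : ℤ) : ℕ → ℤ
  | 0 => 1
  | 1 => c₁ - 2
  | j + 2 => (c₁ - 2) * segre c₁ c₂ (j + 1) - (c₂ - c₁ + 1) * segre c₁ c₂ j

/-- The conditions (1), (2), (3) on the integers `k` and `d`, for a smooth subvariety `X` of codimension two and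
degree `d` of `ℙ^N`, `ω_X = O_X(k)`, which is not a complete intersection. -/
structure Conditions (N : ℕ) (k d : ℤ) : Prop where
  pos : 0 < d
  riemannRoch : RiemannRoch N (X ^ 2 - C (k + N + 1) * X + C d)
  positive : ∀ j : ℕ, j + 2 ≤ N → 0 ≤ segre (k + N + 1) d j
  unstable : 4 * d ≤ (k + N + 1) ^ 2 → ∃ a b : ℤ, a + b = k + N + 1 ∧ 0 < b ∧ b ≤ a ∧
    (N : ℤ) ^ 2 / 4 ≤ d - a * b ∧
    ∀ j : ℕ, j + 3 ≤ N → (a - 1) * segre (k + N + 1) d j ≤ segre (k + N + 1) d (j + 1)

lemma segre_eq (c₁ c₂ : ℤ) : ∀ j : ℕ, segre c₁ c₂ j = Pool.Agent.N998.CT.seg (c₁ - 2) (c₂ - c₁ + 1) j := by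
  intro j
  induction j using Nat.twoStepInduction with
  | zero => rfl
  | one => rfl
  | more n ih1 ih2 => rw [segre, Pool.Agent.N998.CT.seg, ih1, ih2]

lemma cond {N : ℕ} {k d : ℤ} (h : Conditions N k d) : Pool.Agent.L5helper13.Ha.Cond N (k + N + 1) d where
  pos := h.pos
  rr := h.riemannRoch
  positive := fun j hj => by rw [← segre_eq]; exact h.positive j hj
  unstable := fun h4 => by
    obtain ⟨a, b, h1, h2, h3, h5, h6⟩ := h.unstable h4
    exact ⟨a, b, h1, h2, h3, h5, fun j hj => by rw [← segre_eq, ← segre_eq]; exact h6 j hj⟩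

/-- **The degree in codimension two.** Let `ε > 0`, `N ≥ N₀(ε)`, and let `k`, `d` satisfy the conditions for a
smooth subvariety of codimension two which is not a complete intersection. If `d ≤ N ^ (2 + 4 √e - ε)`, then
`d = a b` and `k = a + b - N - 1` with integers `a ≥ b > 0`, `(a - b) N ≤ (3 / 2) √d log d`; in particular `d` is
not a prime, and no prime factor of `d` is larger than `2 √d`. -/
theorem result (ε : ℝ) (hε : 0 < ε) : ∃ N₀ : ℕ, ∀ N : ℕ, N₀ ≤ N → ∀ k d : ℤ, Conditions N k d →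
    (d : ℝ) ≤ (N : ℝ) ^ (2 + 4 * Real.exp (1 / 2) - ε) →
    (∃ a b : ℤ, 0 < b ∧ b ≤ a ∧ k = a + b - N - 1 ∧ d = a * b ∧
      ((a : ℝ) - b) * N ≤ 3 / 2 * (√d * Real.log d)) ∧
    ∀ p : ℕ, p.Prime → (p : ℤ) ∣ d → (p : ℝ) ≤ 2 * √d := by
  refine eventually_atTop.mp ?_
  filter_upwards [Pool.Agent.L5helper13.Ha.kernel 9 (ε / 2) (by positivity), Pool.Agent.L5helper13.Ha.disc 9,
    Pool.Agent.L5helper13.Ha.ev_log2 (9 / 4 * 9 ^ 2) (ε / 2) (by positivity),
    Pool.Agent.L5helper13.Ha.ev_log (3 / 2 * 9), eventually_ge_atTop 2] with N h1 h2 h3 h4 hN k d hC hd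
  have hN2 : (2 : ℝ) ≤ N := by exact_mod_cast hN
  have hN0 : (0 : ℝ) < N := by linarith
  have hd9 : (d : ℝ) ≤ (N : ℝ) ^ (9 : ℝ) := by
    refine hd.trans (Real.rpow_le_rpow_of_exponent_le (by linarith) ?_)
    have := Pool.Agent.R852.BC.exp_half_bounds.2
    linarith
  have hC' := cond hC
  obtain ⟨hc, hD⟩ := h2 _ _ hC' hd9
  have hd1 : (1 : ℝ) ≤ d := by exact_mod_cast hC.pos
  have hlogd0 : 0 ≤ Real.log (d : ℝ) := Real.log_nonneg hd1
  have hlogd : Real.log d ≤ 9 * Real.log N := by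
    have h5 := Real.log_le_log (by linarith) hd9
    rwa [Real.log_rpow hN0] at h5
  have hsq : IsSquare ((k + N + 1) ^ 2 - 4 * d) := by
    by_contra hcon
    have h5 := h1 _ _ hC' hd9 hcon ((k + N + 1) ^ 2 - 4 * d) 1 (by ring)
    have h6 : |((k + N + 1 : ℤ) : ℝ) ^ 2 - 4 * d| ≤ (N : ℝ) ^ (4 * Real.exp (1 / 2) - ε / 2) := by
      have h7 : |((k + N + 1 : ℤ) : ℝ) ^ 2 - 4 * d| * (N : ℝ) ^ 2 ≤
          (N : ℝ) ^ (4 * Real.exp (1 / 2) - ε / 2) * (N : ℝ) ^ 2 := by
        refine hD.trans ?_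
        calc 9 / 4 * ((d : ℝ) * Real.log d ^ 2) ≤
            9 / 4 * ((N : ℝ) ^ (2 + 4 * Real.exp (1 / 2) - ε) * (9 * Real.log N) ^ 2) := by
              gcongr
          _ = (N : ℝ) ^ (2 + 4 * Real.exp (1 / 2) - ε) * (9 / 4 * 9 ^ 2 * Real.log N ^ 2) := by ring
          _ ≤ (N : ℝ) ^ (2 + 4 * Real.exp (1 / 2) - ε) * (N : ℝ) ^ (ε / 2) := by gcongr
          _ = (N : ℝ) ^ (4 * Real.exp (1 / 2) - ε / 2) * (N : ℝ) ^ 2 := by
              rw [← Real.rpow_natCast (N : ℝ) 2, ← Real.rpow_add hN0, ← Real.rpow_add hN0]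
              congr 1
              push_cast
              ring
      exact le_of_mul_le_mul_right h7 (by positivity)
    push_cast at h5 h6
    linarith
  obtain ⟨a, b, hb, hba, hk, hab, hcl⟩ := Pool.Agent.L5helper13.Ha.square_case (by omega) hC.pos hc hD hsq
  refine ⟨⟨a, b, hb, hba, by linarith, hab, hcl⟩, fun p hp hpd => ?_⟩
  -- the prime factors
  have ha : (a : ℝ) ≤ 2 * √d := by
    have h5 : ((a : ℝ) - b) * N ≤ √d * N := by
      refine hcl.trans ?_
      have h6 : 3 / 2 * Real.log d ≤ N := by linarith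
      have h7 := mul_le_mul_of_nonneg_left h6 (Real.sqrt_nonneg (d : ℝ))
      linarith
    have h6 : (a : ℝ) - b ≤ √d := le_of_mul_le_mul_right h5 hN0
    have h7 : (b : ℝ) ≤ √d := by
      apply Real.le_sqrt_of_sq_le
      have h8 : b ^ 2 ≤ d := by rw [hab]; nlinarith
      exact_mod_cast h8
    linarith
  have h5 : (p : ℤ) ≤ a := by
    have hpZ : Prime (p : ℤ) := Nat.prime_iff_prime_int.1 hp
    rw [hab] at hpd
    rcases hpZ.dvd_or_dvd hpd with h | h
    · exact Int.le_of_dvd (by linarith) h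
    · exact (Int.le_of_dvd hb h).trans hba
  have h6 : (p : ℝ) ≤ a := by exact_mod_cast h5
  linarith

end Pool.Agent.Results.MP_014caa_ag.DegreeUpToPower
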