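import Pool.Agent.L5helper13.Hart5

/-!
# The degrees of smooth subvarieties of codimension two of a given canonical class

Let `X ⊂ ℙ^N`, `N ≥ 7`, be a smooth subvariety of codimension two and degree `d`, with the canonical class
`ω_X = O_X(k)`, which is not a complete intersection. Then `k` and `d` satisfy the following conditions; they are
explained in the starting file `QuarticDegree` of this problem. Let `c₁ = k + N + 1`.

(1) The Riemann-Roch conditions for `T² - c₁ T + d`.

(2) The Segre classes `h_j`, `j ≤ N - 2`, of the globally generated bundle `N_X(-1)` are not negative: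
`h_0 = 1`, `h_1 = c₁ - 2`, `h_(j+2) = (c₁ - 2) h_(j+1) - (d - c₁ + 1) h_j`.

(3) If `4 d ≤ c₁²`, then the bundle `E` of rank two of `X` is not stable; let `a` be the largest integer such that
`E(-a)` has a section `t ≠ 0`, and `b = c₁ - a`. Then `0 < b ≤ a`, the scheme of zeros of `t` has codimension two and
degree `d - a b ≥ N² / 4` (integral part), and `(a - 1) h_j ≤ h_(j+1)` for `j ≤ N - 3`.

Let `A ≥ 1` be arbitrary, `N ≥ N₀(A, ε)`. We show for EVERY canonical class `k` with `c₁ = k + N + 1 ≤ N ^ A`: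

* at most `c₁ / N ^ (1 + 2 √e - ε)` degrees `d` satisfy the conditions such that `k` and `d` are not those of a
  complete intersection, `1 + 2 √e = 4.29…`; so there is no such degree if `c₁ < N ^ (1 + 2 √e - ε)`;
* at most `2 A c₁ (log N) / N` degrees `d` satisfy the conditions.

The degree of `X` is a priori an integer between `c₁ - 1` and `c₁²`.
-/

set_option autoImplicit false

namespace Pool.Agent.Results.MP_014caa_ag.EveryCanonicalClass

open Finset Filter Polynomial Pool.Agent.R920.CH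

/-- The numbers `h_0 = 1`, `h_1 = c₁ - 2`, `h_(j+2) = (c₁ - 2) h_(j+1) - (c₂ - c₁ + 1) h_j`. -/
def segre (c₁ c₂ : ℤ) : ℕ → ℤ
  | 0 => 1
  | 1 => c₁ - 2
  | j + 2 => (c₁ - 2) * segre c₁ c₂ (j + 1) - (c₂ - c₁ + 1) * segre c₁ c₂ j

/-- The conditions (1), (2), (3) on the integers `k` and `d`, for a smooth subvariety `X` of codimension two and
degree `d` of `ℙ^N`, `ω_X = O_X(k)`, which is not a complete intersection. -/
structure Conditions (N : ℕ) (k d : ℤ) : Prop where
  pos : 0 < d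
  riemannRoch : RiemannRoch N (X ^ 2 - C (k + N + 1) * X + C d)
  positive : ∀ j : ℕ, j + 2 ≤ N → 0 ≤ segre (k + N + 1) d j
  unstable : 4 * d ≤ (k + N + 1) ^ 2 → ∃ a b : ℤ, a + b = k + N + 1 ∧ 0 < b ∧ b ≤ a ∧
    (N : ℤ) ^ 2 / 4 ≤ d - a * b ∧
    ∀ j : ℕ, j + 3 ≤ N → (a - 1) * segre (k + N + 1) d j ≤ segre (k + N + 1) d (j + 1)

/-- `k` and `d` are those of a complete intersection of hypersurfaces of degrees `a` and `b`. -/
def IsCI (N : ℕ) (k d : ℤ) : Prop := ∃ a b : ℤ, 0 < a ∧ 0 < b ∧ k = a + b - N - 1 ∧ d = a * b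

lemma segre_eq (c₁ c₂ : ℤ) : ∀ j : ℕ, segre c₁ c₂ j = Pool.Agent.N998.CT.seg (c₁ - 2) (c₂ - c₁ + 1) j := by
  intro j
  induction j using Nat.twoStepInduction with
  | zero => rfl
  | one => rfl
  | more n ih1 ih2 => rw [segre, Pool.Agent.N998.CT.seg, ih1, ih2]

lemma cond {N : ℕ} {k d : ℤ} (h : Conditions N k d) : Pool.Agent.L5helper13.Ha.Cond N (k + N + 1) d where
  pos := h.pos
  rr := h.riemannRoch
  positive := fun j hj => by rw [← segre_eq]; exact h.positive j hj
  unstable := fun h4 => by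
    obtain ⟨a, b, h1, h2, h3, h5, h6⟩ := h.unstable h4
    exact ⟨a, b, h1, h2, h3, h5, fun j hj => by rw [← segre_eq, ← segre_eq]; exact h6 j hj⟩

/-- **Every canonical class.** Let `A ≥ 1`, `ε > 0`, `N ≥ N₀(A, ε)` and `k + N + 1 ≤ N ^ A`.
1. At most `(k + N + 1) / N ^ (1 + 2 √e - ε)` integers `d` satisfy the conditions such that `k` and `d` are not those
of a complete intersection.
2. At most `2 A (k + N + 1) (log N) / N` integers `d` satisfy the conditions.
3. If `k + N + 1 < N ^ (1 + 2 √e - ε)` and `d` satisfies the conditions, then `k` and `d` are those of a complete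
intersection. -/
theorem result (A : ℕ) (hA : 1 ≤ A) (ε : ℝ) (hε : 0 < ε) : ∃ N₀ : ℕ, ∀ N : ℕ, N₀ ≤ N → ∀ k : ℤ,
    k + N + 1 ≤ (N : ℤ) ^ A →
    (∀ S : Finset ℤ, (∀ d ∈ S, Conditions N k d ∧ ¬ IsCI N k d) → S.Nonempty →
      (S.card : ℝ) * (N : ℝ) ^ (1 + 2 * Real.exp (1 / 2) - ε) ≤ k + N + 1) ∧
    (∀ S : Finset ℤ, (∀ d ∈ S, Conditions N k d) → S.Nonempty →
      (S.card : ℝ) * N ≤ 2 * A * (k + N + 1) * Real.log N) ∧
    ((k + N + 1 : ℝ) < (N : ℝ) ^ (1 + 2 * Real.exp (1 / 2) - ε) → ∀ d : ℤ, Conditions N k d → IsCI N k d) := by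
  classical
  refine eventually_atTop.mp ?_
  filter_upwards [Pool.Agent.L5helper13.Ha.class_nonsq A ε hε, Pool.Agent.L5helper13.Ha.class_all A hA,
    eventually_ge_atTop 3] with N h1 h2 hN k hk
  have hpos : ∀ d : ℤ, Conditions N k d → 0 ≤ k + N + 1 := by
    intro d hd
    have h3 := hd.positive 1 (by omega)
    simp only [segre] at h3
    linarith
  have hfirst : ∀ S : Finset ℤ, (∀ d ∈ S, Conditions N k d ∧ ¬ IsCI N k d) → S.Nonempty →
      (S.card : ℝ) * (N : ℝ) ^ (1 + 2 * Real.exp (1 / 2) - ε) ≤ k + N + 1 := by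
    rintro S hS ⟨d₀, hd₀⟩
    have h3 := h1 (k + N + 1) hk S (by
      intro d hd
      obtain ⟨g1, g2⟩ := hS d hd
      refine ⟨cond g1, fun hsq => g2 ?_⟩
      obtain ⟨a, b, hab1, hab2⟩ := Pool.Agent.R503.PS.split_of_square hsq
      simp only at hab1 hab2
      have hdp := g1.pos
      have hc := hpos d g1
      rw [hab2] at hdp
      rcases mul_pos_iff.1 hdp with ⟨ha, hb⟩ | ⟨ha, hb⟩
      · exact ⟨a, b, ha, hb, by linarith, hab2⟩
      · linarith) (hpos d₀ (hS d₀ hd₀).1)
    push_cast at h3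
    exact h3
  refine ⟨hfirst, ?_, ?_⟩
  · rintro S hS ⟨d₀, hd₀⟩
    have h3 := h2 (k + N + 1) hk S (fun d hd => cond (hS d hd)) (hpos d₀ (hS d₀ hd₀))
    push_cast at h3
    exact h3
  · intro hlt d hd
    by_contra hcon
    have h3 := hfirst {d} (by
      intro d' hd'
      rw [mem_singleton] at hd'
      rw [hd']
      exact ⟨hd, hcon⟩) ⟨d, mem_singleton_self d⟩
    rw [card_singleton, Nat.cast_one, one_mul] at h3
    linarith

end Pool.Agent.Results.MP_014caa_ag.EveryCanonicalClass
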