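import Pool.Agent.L5helper13.Hart4

/-!
# The canonical classes of smooth subvarieties of codimension two of a given degree

Let `X ⊂ ℙ^N`, `N ≥ 7`, be a smooth subvariety of codimension two and degree `d`, with the canonical class
`ω_X = O_X(k)`. There is a vector bundle of rank two on `ℙ^N` with the Chern classes `c₁ = k + N + 1` and `c₂ = d`
(Serre), so that the Riemann-Roch conditions hold for `T² - c₁ T + d`; and `0 < c₁ ≤ d + 1`, since `N_X(-1)` is
globally generated. So for given `d` there are a priori `d + 1` possible values of `k`. We show for all natural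
numbers `A`, all large `N` and EVERY degree `d ≤ N ^ A` that at most

  `(log N) ^ (12 A + 18) τ(d)²`

values of `k` are possible, where `τ(d)` is the number of divisors; for a prime degree at most
`4 (log N) ^ (12 A + 18)`. (Complete intersections have about `τ(d) / 2` values.)

Proof. Let `D = c₁² - 4 d`. If `D` is not a square, then `D = Δ f²`, where `Δ = u δ`, `u ∈ {1, -1, 2, -2}` and `δ` is
in a set of at most a power of `log N` squarefree odd numbers (large sieve; see the starting file
`AlmostAllDegrees`). So `(c₁, f)` is a solution of the equation of Pell's type `c₁² - Δ f² = 4 d`. For given `Δ` and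
given `g = gcd(c₁, f)` the solutions are divided into at most `2 τ(4 d / g²)` classes by the residue of `c₁ / f`
modulo `4 d / g²`; the quotient of two solutions of the same class is a unit `U + V √Δ` of norm `1`, which gives
`c₁' ≥ 2 c₁` for two solutions of the same class. So there are `O(log N)` solutions of each class.
-/

set_option autoImplicit false

namespace Pool.Agent.Results.MP_014caa_ag.EveryDegree

open Finset Filter Polynomial Pool.Agent.R920.CH

/-- The integers `k` and `d > 0` satisfy `0 < k + N + 1 ≤ d + 1`, and `c₁ = k + N + 1`, `c₂ = d` satisfy the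
Riemann-Roch conditions on `ℙ^N`. -/
def Possible (N : ℕ) (k d : ℤ) : Prop :=
  0 < d ∧ 0 < k + N + 1 ∧ k + N + 1 ≤ d + 1 ∧ RiemannRoch N (X ^ 2 - C (k + N + 1) * X + C d)

/-- **Every degree.** For all large `N` and every degree `d ≤ N ^ A` at most `(log N) ^ (12 A + 18) τ(d) ^ 2` integers
`k` are possible. -/
theorem result (A : ℕ) : ∃ N₀ : ℕ, ∀ N : ℕ, N₀ ≤ N → ∀ d : ℕ, 1 ≤ d → d ≤ N ^ A → ∀ S : Finset ℤ,
    (∀ k ∈ S, Possible N k d) → (S.card : ℝ) ≤ Real.log N ^ (12 * A + 18) * (d.divisors.card : ℝ) ^ 2 := by
  classical
  refine eventually_atTop.mp ?_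
  filter_upwards [Pool.Agent.L5helper13.Ha.every A] with N h d hd hdA S hS
  have h1 := h d hd hdA (S.image fun k : ℤ => (k + N + 1).toNat) (by
    intro c hc
    rw [mem_image] at hc
    obtain ⟨k, hk, rfl⟩ := hc
    obtain ⟨h1, h2, h3, h4⟩ := hS k hk
    have e : (((k + N + 1).toNat : ℕ) : ℤ) = k + N + 1 := Int.toNat_of_nonneg h2.le
    refine ⟨by omega, by omega, ?_⟩
    rw [e]
    exact h4)
  rw [card_image_of_injOn (by
    intro a ha b hb hab
    have h2 := (hS a ha).2.1
    have h3 := (hS b hb).2.1
    simp only at hab
    omega)] at h1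
  exact h1

end Pool.Agent.Results.MP_014caa_ag.EveryDegree
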